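import Pool.Agent.U946.TR.Fin
import Pool.Agent.U946.TR.Opn
import Pool.Agent.U901.TR.RAM
import Pool.Agent.U2.TR.RED

/-!
# Countable Borel equivalence relations on topological Ramsey spaces

Definitions (`Pool.Agent.Q147.TRSpace` of the starting library; `Pool.Agent.U946.TR.Stm`, `.Ell`,
`.Fin`): `TRS` is the structure of a topological Ramsey space `(R, ≤, r)` with Todorcevic's axioms
A.1 - A.4, `R` closed in `AR ^ ℕ`; `In T n A B`: `A ∈ [n, B]`; `Cube T a A`: the set `[a, A]`;
`Dep T a B n`: the depth of `a` in `B` is `n`; `polish`: the topology inherited from `AR ^ ℕ`;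
`BorelSet`, `bor`: its Borel sets; `ellentuck`: the Ellentuck topology; `Meager`: meager in it (the
σ-ideal `I(R)`); `IsCBER`: countable Borel equivalence relation; `Res E C`: the restriction of `E`
to `C`; `Hyperfinite`; `Red`: Borel reducibility; `E₀`: eventual equality on `2 ^ ℕ`.

Packages by helper901 (`Pool.Agent.U901.TR.RAM`: Borel sets are completely Ramsey) and helper2
(`Pool.Agent.U2.TR.RED`: reduction to `E₀`).
-/

set_option autoImplicit false

namespace Pool.Agent.Results.MP_8067b8_lc.HyperfiniteOnCubes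

open Set Pool.Agent.Q147.TR Pool.Agent.U946.TR

attribute [local instance] bor

/-- `E` is in the spectrum of `I(R)`: every Borel set outside `I(R)` contains a Borel set `C`
outside `I(R)` such that `E ↾ C` and `E` are Borel bireducible. -/
def InSpectrum (T : TRS) (E : T.R → T.R → Prop) : Prop :=
  ∀ B : Set T.R, BorelSet T B → ¬ Meager T B → ∃ C ⊆ B, BorelSet T C ∧ ¬ Meager T C ∧
    Red (Res E C) E ∧ Red E (Res E C)

/-- (1) For every countable Borel equivalence relation `E` on a topological Ramsey space and every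
`[a, B]`, `n = depth_B(a) < ∞`, there is `C ∈ [n, B]` such that `E ↾ [a, C]` is hyperfinite and
Borel reducible to `E₀`. (2) Every Borel set outside `I(R)` contains such a cube, which is again
outside `I(R)`: `I(R)` canonizes `E` to `E₀`. (3) So there is no topological Ramsey space with a
countable Borel equivalence relation strictly above `E₀` in the spectrum of `I(R)`. -/
theorem result :
    (∀ (T : TRS) (_ : Countable T.AR) (E : T.R → T.R → Prop), IsCBER T E →
      ∀ (a : T.AR) (B : T.R) (n : ℕ), Dep T a B n →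
        ∃ C, In T n C B ∧ Hyperfinite (Res E (Cube T a C)) ∧ Red (Res E (Cube T a C)) E₀) ∧
    (∀ (T : TRS) (_ : Countable T.AR) (E : T.R → T.R → Prop), IsCBER T E →
      ∀ B : Set T.R, BorelSet T B → ¬ Meager T B →
        ∃ a C, Cube T a C ⊆ B ∧ BorelSet T (Cube T a C) ∧ ¬ Meager T (Cube T a C) ∧
          Hyperfinite (Res E (Cube T a C)) ∧ Red (Res E (Cube T a C)) E₀) ∧
    ¬ ∃ (T : TRS) (_ : Countable T.AR) (E : T.R → T.R → Prop),
      IsCBER T E ∧ Red E₀ E ∧ ¬ Red E E₀ ∧ InSpectrum T E := by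
  have h1 : ∀ (T : TRS) (_ : Countable T.AR) (E : T.R → T.R → Prop), IsCBER T E →
      ∀ (a : T.AR) (B : T.R) (n : ℕ), Dep T a B n →
        ∃ C, In T n C B ∧ Hyperfinite (Res E (Cube T a C)) ∧ Red (Res E (Cube T a C)) E₀ :=
    fun T _ E hE a B n hd =>
      canonize T (Pool.Agent.U901.TR.t_RAM T) Pool.Agent.U2.TR.t_RED E hE a B n hd
  have h2 : ∀ (T : TRS) (_ : Countable T.AR) (E : T.R → T.R → Prop), IsCBER T E →
      ∀ B : Set T.R, BorelSet T B → ¬ Meager T B →
        ∃ a C, Cube T a C ⊆ B ∧ BorelSet T (Cube T a C) ∧ ¬ Meager T (Cube T a C) ∧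
          Hyperfinite (Res E (Cube T a C)) ∧ Red (Res E (Cube T a C)) E₀ := by
    intro T hT E hE B hB hm
    obtain ⟨a, A, n, hd, hsub⟩ := exists_cube (Pool.Agent.U901.TR.t_RAM T) hB hm
    obtain ⟨C, hC, hh, hr⟩ := h1 T hT E hE a A n hd
    exact ⟨a, C, (cube_mono hC.1).trans hsub, meas_cube a C,
      cube_not_meager (Opn.openRam T) (dep_of_in hd hC le_rfl), hh, hr⟩
  refine ⟨h1, h2, ?_⟩
  rintro ⟨T, hT, E, hE, -, hnot, hspec⟩
  have huniv : ¬ Meager T (univ : Set T.R) := by
    intro hm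
    obtain ⟨X⟩ := T.ne
    obtain ⟨n, hn⟩ := exists_dep_le (T.le_refl X) 0
    refine cube_not_meager (Opn.openRam T) hn ?_
    let _ := ellentuck T
    exact IsMeagre.mono (subset_univ _) hm
  obtain ⟨a, C, -, hCB, hCm, -, hCr⟩ := h2 T hT E hE univ MeasurableSet.univ huniv
  obtain ⟨D, hDC, -, -, -, hDr⟩ := hspec _ hCB hCm
  apply hnot
  obtain ⟨f, hf, hf'⟩ := hDr
  obtain ⟨g, hg, hg'⟩ := hCr
  refine ⟨fun x => g ⟨f x, hDC (f x).2⟩, hg.comp ?_, fun x x' => ?_⟩
  · exact (measurable_subtype_coe.comp hf).subtype_mk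
  · rw [hf' x x', ← hg']
    exact Iff.rfl

end Pool.Agent.Results.MP_8067b8_lc.HyperfiniteOnCubes
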